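import Pool.Agent.AFL.Stmts

/-! Row NET of tank AFL (helper20). -/

set_option autoImplicit false

noncomputable section

namespace Pool.Agent.AFL.H20

open Pool.Agent.LE.QF Pool.Agent.AFJ Pool.Agent.ABY

theorem net : NetStmt := by
  intro jal jma bgj X iX dX F c₀ C₀ q hF h0 hT
  exact bgj jal jma X F.toBlk q hF.sym fun x => hF.pos q.1 x h0 hT

end Pool.Agent.AFL.H20
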